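import Pool.Agent.Lib.MP_b5021c_nt.IfaceKO
import Pool.Agent.Lib.MP_b5021c_nt.KO.H67.O2

/-!
# Board b5, ALL `θ`, K ODD, leaf (O4): the three cases of `Ob4S`

`Ob4S` = cycles of length at least four (`Ob4lS`, helper35) + 3-cycles with a neutral outside pair
(`Ob4aS` = ALPHA, helper92) + 3-cycles without (`Ob4bS` = PURE BETA, helper58).
A pair `(T, lam)`, `T` a ray outside the cycle, `lam` a load of `T` with a drop, is NEUTRAL if all
`Z i` are in `US lam T D` (all functionals killing the closing `w^T = lam` vanish on the cycle).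
-/

namespace Pool.Agent.B5

open scoped LaurentPolynomial
open Polynomial

/-- The pair `(T, lam)` is neutral for the cycle `Z`. -/
def Neu {P L : Type} [Fintype P] [DecidableEq P] [AddCommGroup L] [Module.Free ℤ L]
    [Module.Finite ℤ L] {k : ℕ} (phi : L →+ (P → ℤ)) (D : AO ℤ L) (Z : ZMod (k + 3) → L) (T : L)
    (lam : (RO ℤ)ˣ) : Prop :=
  Ray D T ∧ (∀ i, T ≠ Z i) ∧ ¬ Dfr phi D T lam ∧ ∀ i, Z i ∈ US lam T D

/-- (KO_O4L) cycles of length `k + 4`. -/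
def Ob4lS : Prop := ∀ (P L : Type) [Fintype P] [DecidableEq P] [AddCommGroup L]
  [Module.Free ℤ L] [Module.Finite ℤ L] (phi : L →+ (P → ℤ)) (D : AO ℤ L) (q f : ℤ[X]) (a : ℝ)
  (j : ℕ) (eta : L → (RO ℤ)ˣ) (C : Set L) (k : ℕ) (Z : ZMod (k + 1 + 3) → L)
  (mu : ZMod (k + 1 + 3) → L →+ ℤ), KcB phi D q f a j eta 1 C →
    f.coeff 0 = 1 → f.coeff 1 - q.coeff 1 = j + 1 → Cyc phi D eta (k + 1) Z mu →
      (∀ i, Z i ∈ C) → False

/-- (KO_O4A) ALPHA: a 3-cycle and a neutral outside pair. -/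
def Ob4aS : Prop := ∀ (P L : Type) [Fintype P] [DecidableEq P] [AddCommGroup L]
  [Module.Free ℤ L] [Module.Finite ℤ L] (phi : L →+ (P → ℤ)) (D : AO ℤ L) (q f : ℤ[X]) (a : ℝ)
  (j : ℕ) (eta : L → (RO ℤ)ˣ) (C : Set L) (Z : ZMod (0 + 3) → L)
  (mu : ZMod (0 + 3) → L →+ ℤ) (T : L) (lam : (RO ℤ)ˣ), KcB phi D q f a j eta 1 C →
    f.coeff 0 = 1 → f.coeff 1 - q.coeff 1 = j + 1 → Cyc phi D eta 0 Z mu →
      (∀ i, Z i ∈ C) → Neu phi D Z T lam → False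

/-- (KO_O4B) PURE BETA: a 3-cycle, no neutral outside pair. -/
def Ob4bS : Prop := ∀ (P L : Type) [Fintype P] [DecidableEq P] [AddCommGroup L]
  [Module.Free ℤ L] [Module.Finite ℤ L] (phi : L →+ (P → ℤ)) (D : AO ℤ L) (q f : ℤ[X]) (a : ℝ)
  (j : ℕ) (eta : L → (RO ℤ)ˣ) (C : Set L) (Z : ZMod (0 + 3) → L)
  (mu : ZMod (0 + 3) → L →+ ℤ), KcB phi D q f a j eta 1 C →
    f.coeff 0 = 1 → f.coeff 1 - q.coeff 1 = j + 1 → Cyc phi D eta 0 Z mu →
      (∀ i, Z i ∈ C) → (∀ (T : L) (lam : (RO ℤ)ˣ), ¬ Neu phi D Z T lam) → False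

/-- THE SPLIT. -/
theorem ob4_split (hCyc : CycS) (hSf : SfzS) (hClp : ClpS) (hL : Ob4lS) (hB : Ob4bS)
    (hA : Ob4aS) : Ob4S := by
  intro P L _ _ _ _ _ phi D q f a j eta C W hu hn
  obtain ⟨S, hS⟩ := W.kc.ne
  have hAs := KO67.aset hSf hClp W hu
  have hrk := W.ko.rk
  have hj := W.ko.j2
  obtain ⟨k, Z, mu, hc, -, hZ⟩ :=
    hCyc ℤ P L phi D eta a⁻¹ C W.ko.min (by omega) hAs S hS
  rcases k with _ | k
  · by_cases h : ∃ (T : L) (lam : (RO ℤ)ˣ), Neu phi D Z T lam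
    · obtain ⟨T, lam, h⟩ := h
      exact hA P L phi D q f a j eta C Z mu T lam W hu hn hc hZ h
    · exact hB P L phi D q f a j eta C Z mu W hu hn hc hZ fun T lam h1 => h ⟨T, lam, h1⟩
  · exact hL P L phi D q f a j eta C k Z mu W hu hn hc hZ

/-! ## The finer split: the 4-cycles come last -/

/-- (KO_O45) cycles of length at least five. -/
def Ob45S : Prop := ∀ (P L : Type) [Fintype P] [DecidableEq P] [AddCommGroup L]
  [Module.Free ℤ L] [Module.Finite ℤ L] (phi : L →+ (P → ℤ)) (D : AO ℤ L) (q f : ℤ[X]) (a : ℝ)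
  (j : ℕ) (eta : L → (RO ℤ)ˣ) (C : Set L) (k : ℕ) (Z : ZMod (k + 2 + 3) → L)
  (mu : ZMod (k + 2 + 3) → L →+ ℤ), KcB phi D q f a j eta 1 C →
    f.coeff 0 = 1 → f.coeff 1 - q.coeff 1 = j + 1 → Cyc phi D eta (k + 2) Z mu →
      (∀ i, Z i ∈ C) → False

/-- All cycles of all components of the B-loads have length four. -/
def All4 {P L : Type} [Fintype P] [DecidableEq P] [AddCommGroup L] [Module.Free ℤ L]
    [Module.Finite ℤ L] (phi : L →+ (P → ℤ)) (D : AO ℤ L) (q : ℤ[X]) (a : ℝ) (j : ℕ) : Prop :=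
  ∀ (f : ℤ[X]) (eta : L → (RO ℤ)ˣ) (C : Set L) (k : ℕ) (Z : ZMod (k + 3) → L)
    (mu : ZMod (k + 3) → L →+ ℤ), KcB phi D q f a j eta 1 C → f.coeff 0 = 1 →
      f.coeff 1 - q.coeff 1 = j + 1 → Cyc phi D eta k Z mu → (∀ i, Z i ∈ C) → k = 1

/-- (KO_O44) a 4-cycle, and all cycles of all components have length four. -/
def Ob44S : Prop := ∀ (P L : Type) [Fintype P] [DecidableEq P] [AddCommGroup L]
  [Module.Free ℤ L] [Module.Finite ℤ L] (phi : L →+ (P → ℤ)) (D : AO ℤ L) (q f : ℤ[X]) (a : ℝ)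
  (j : ℕ) (eta : L → (RO ℤ)ˣ) (C : Set L) (Z : ZMod (1 + 3) → L)
  (mu : ZMod (1 + 3) → L →+ ℤ), KcB phi D q f a j eta 1 C →
    f.coeff 0 = 1 → f.coeff 1 - q.coeff 1 = j + 1 → Cyc phi D eta 1 Z mu →
      (∀ i, Z i ∈ C) → All4 phi D q a j → False

/-- THE SPLIT in the order: length at least five, 3-cycles, length four. `Ob4aS` and `Ob4bS` may
use `Ob45S`. -/
theorem ob4_split4 (hCyc : CycS) (hSf : SfzS) (hClp : ClpS) (h5 : Ob45S) (hB : Ob4bS)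
    (hA : Ob4aS) (h4 : Ob44S) : Ob4S := by
  refine ob4_split hCyc hSf hClp ?_ hB hA
  intro P L _ _ _ _ _ phi D q f a j eta C k Z mu W hu hn hc hZ
  rcases k with _ | k
  · refine h4 P L phi D q f a j eta C Z mu W hu hn hc hZ ?_
    intro f' eta' C' k' Z' mu' W' hu' hn' hc' hZ'
    rcases k' with _ | k'
    · exfalso
      by_cases h : ∃ (T : L) (lam : (RO ℤ)ˣ), Neu phi D Z' T lam
      · obtain ⟨T, lam, h⟩ := h
        exact hA P L phi D q f' a j eta' C' Z' mu' T lam W' hu' hn' hc' hZ' h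
      · exact hB P L phi D q f' a j eta' C' Z' mu' W' hu' hn' hc' hZ' fun T lam h1 =>
          h ⟨T, lam, h1⟩
    · rcases k' with _ | k'
      · rfl
      · exact (h5 P L phi D q f' a j eta' C' k' Z' mu' W' hu' hn' hc' hZ').elim
  · exact h5 P L phi D q f a j eta C k Z mu W hu hn hc hZ

end Pool.Agent.B5
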