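import Pool.Agent.Lib.MP_b5021c_nt.KO.H40.Ovl
import Pool.Agent.Lib.MP_b5021c_nt.KO.H29.Dbl
import Pool.Agent.Lib.MP_b5021c_nt.KO.H96.Mix

/-!
# Board b5, K odd, (O4), ALPHA: the case tree (helper62, rows of helper92's list)

`Oal3S` from
* `Tk3AS` (R3, `k = 0`, TK3), `Df4AS` (R3, `k = 1`),
* `DisAS` (R8), `LnAS` (R1),
* `M1AS` (R7, `m = 1`), `MnAS` (R2, R4, R5, R6, `m ≠ 1`).
-/

set_option linter.unusedSectionVars false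

namespace Pool.Agent.B5.KO62

open scoped LaurentPolynomial
open Polynomial
open Pool.Agent.B5 Pool.Agent.B5.KO.H40 Pool.Agent.B5.KO29
open Pool.Agent.B5.O4X
open Pool.Agent.B5.KO.H96 (Alp Oal3S)

/-- (R3, `k = 0`) TK3 for both orientations. -/
def Tk3AS : Prop := ∀ (P L : Type) [Fintype P] [DecidableEq P] [AddCommGroup L]
  [Module.Free ℤ L] [Module.Finite ℤ L] (phi : L →+ (P → ℤ)) (D : AO ℤ L) (q f f' : ℤ[X])
  (a : ℝ) (j : ℕ) (eta : L → (RO ℤ)ˣ) (k' : ℕ) (Z : ZMod (0 + 3) → L)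
  (mu : ZMod (0 + 3) → L →+ ℤ) (Z' : ZMod (k' + 3) → L) (mu' : ZMod (k' + 3) → L →+ ℤ),
    Alp phi D q f f' a j eta 0 k' Z mu Z' mu' → ∀ i : ZMod (0 + 3),
    (∀ nu, Kil phi D (Z i) (Z (i + 1)) (eta (Z i) * tA) (eta (Z (i + 1)) * tC) nu → nu = 0) ∧
    (∀ nu, Kil phi D (Z (i + 1)) (Z i) (eta (Z (i + 1)) * tA) (eta (Z i) * tC) nu → nu = 0)

/-- (R3, `k = 1`) DF4M. -/
def Df4AS : Prop := ∀ (P L : Type) [Fintype P] [DecidableEq P] [AddCommGroup L]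
  [Module.Free ℤ L] [Module.Finite ℤ L] (phi : L →+ (P → ℤ)) (D : AO ℤ L) (q f f' : ℤ[X])
  (a : ℝ) (j : ℕ) (eta : L → (RO ℤ)ˣ) (k' : ℕ) (Z : ZMod (1 + 3) → L)
  (mu : ZMod (1 + 3) → L →+ ℤ) (Z' : ZMod (k' + 3) → L) (mu' : ZMod (k' + 3) → L →+ ℤ),
    Alp phi D q f f' a j eta 1 k' Z mu Z' mu' → ∀ i : ZMod (1 + 3),
      Dff phi D eta (Z i) (Z (i + 1))

/-- (R8) no common port. -/
def DisAS : Prop := ∀ (P L : Type) [Fintype P] [DecidableEq P] [AddCommGroup L]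
  [Module.Free ℤ L] [Module.Finite ℤ L] (phi : L →+ (P → ℤ)) (D : AO ℤ L) (q f f' : ℤ[X])
  (a : ℝ) (j : ℕ) (eta : L → (RO ℤ)ˣ) (k k' : ℕ) (Z : ZMod (k + 3) → L)
  (mu : ZMod (k + 3) → L →+ ℤ) (Z' : ZMod (k' + 3) → L) (mu' : ZMod (k' + 3) → L →+ ℤ),
    Alp phi D q f f' a j eta k k' Z mu Z' mu' → (∀ i, Dff phi D eta (Z i) (Z (i + 1))) →
    (∀ l, Dff phi D eta (Z' l) (Z' (l + 1))) → ∀ i l p, phi (Z i) p = 0 ∨ phi (Z' l) p = 0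

/-- (R1) LN: `gR` is zero or a unit times a polynomial with constant coefficient one. -/
def LnAS : Prop := ∀ (P L : Type) [Fintype P] [DecidableEq P] [AddCommGroup L]
  [Module.Free ℤ L] [Module.Finite ℤ L] (phi : L →+ (P → ℤ)) (D : AO ℤ L) (q f f' : ℤ[X])
  (a : ℝ) (j : ℕ) (eta : L → (RO ℤ)ˣ) (k : ℕ) (Z : ZMod (k + 3) → L)
  (mu : ZMod (k + 3) → L →+ ℤ) (Z' : ZMod (0 + 3) → L) (mu' : ZMod (0 + 3) → L →+ ℤ),
    Alp phi D q f f' a j eta k 0 Z mu Z' mu' → (∀ i l p, phi (Z i) p = 0 ∨ phi (Z' l) p = 0) →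
    3 ≤ j → ∀ (i : ZMod (k + 3)) (l : ZMod (0 + 3)),
      gR D eta f' (Z i) (Z' l) = 0 ∨ ∃ (s : ℤˣ) (m : ℤ) (g : ℤ[X]), g.coeff 0 = 1 ∧
        gR D eta f' (Z i) (Z' l) = LaurentPolynomial.C (s : ℤ) * LaurentPolynomial.T m *
          toLaurent g

/-- (R7) the order one is impossible. -/
def M1AS : Prop := ∀ (P L : Type) [Fintype P] [DecidableEq P] [AddCommGroup L]
  [Module.Free ℤ L] [Module.Finite ℤ L] (phi : L →+ (P → ℤ)) (D : AO ℤ L) (q f f' : ℤ[X])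
  (a : ℝ) (j : ℕ) (eta : L → (RO ℤ)ˣ) (k : ℕ) (Z : ZMod (k + 3) → L)
  (mu : ZMod (k + 3) → L →+ ℤ) (Z' : ZMod (0 + 3) → L) (mu' : ZMod (0 + 3) → L →+ ℤ),
    k ≤ 1 → Alp phi D q f f' a j eta k 0 Z mu Z' mu' →
    (∀ i l p, phi (Z i) p = 0 ∨ phi (Z' l) p = 0) → 3 ≤ j →
    ∀ (i : ZMod (k + 3)), (∀ nu, Kil phi D (Z i) (Z (i + 1)) (eta (Z i) * tA)
      (eta (Z (i + 1)) * tC) nu → nu = 0) →
    ∀ (l : ZMod (0 + 3)) (s : ℤˣ) (g : ℤ[X]), g.coeff 0 = 1 →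
      gR D eta f' (Z i) (Z' l) = LaurentPolynomial.C (s : ℤ) * LaurentPolynomial.T 1 *
        toLaurent g → False

/-- (R2, R4, R5, R6) `gR = 0` or an order different from one is impossible. -/
def MnAS : Prop := ∀ (P L : Type) [Fintype P] [DecidableEq P] [AddCommGroup L]
  [Module.Free ℤ L] [Module.Finite ℤ L] (phi : L →+ (P → ℤ)) (D : AO ℤ L) (q f f' : ℤ[X])
  (a : ℝ) (j : ℕ) (eta : L → (RO ℤ)ˣ) (k : ℕ) (Z : ZMod (k + 3) → L)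
  (mu : ZMod (k + 3) → L →+ ℤ) (Z' : ZMod (0 + 3) → L) (mu' : ZMod (0 + 3) → L →+ ℤ),
    k ≤ 1 → Alp phi D q f f' a j eta k 0 Z mu Z' mu' →
    (∀ i l p, phi (Z i) p = 0 ∨ phi (Z' l) p = 0) → 3 ≤ j →
    ∀ (i : ZMod (k + 3)), (∀ nu, Kil phi D (Z i) (Z (i + 1)) (eta (Z i) * tA)
      (eta (Z (i + 1)) * tC) nu → nu = 0) → ∀ (l : ZMod (0 + 3)),
      (gR D eta f' (Z i) (Z' l) = 0 ∨ ∃ (s : ℤˣ) (m : ℤ) (g : ℤ[X]), g.coeff 0 = 1 ∧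
        m ≠ 1 ∧ gR D eta f' (Z i) (Z' l) =
          LaurentPolynomial.C (s : ℤ) * LaurentPolynomial.T m * toLaurent g) → False

/-- ALPHA. -/
theorem oal3 (hT : Tk3AS) (h4 : Df4AS) (hDis : DisAS) (hLn : LnAS) (hM1 : M1AS) (hMn : MnAS) :
    Oal3S := by
  intro P L _ _ _ _ _ phi D q f f' a j eta k Z mu Z' mu' hk A
  -- `V''` drop free at both cycles
  have hd : ∀ i, Dff phi D eta (Z i) (Z (i + 1)) := by
    rcases (by omega : k = 0 ∨ k = 1) with rfl | rfl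
    · intro i
      exact Or.inl (hT P L phi D q f f' a j eta 0 Z mu Z' mu' A i).1
    · exact h4 P L phi D q f f' a j eta 0 Z mu Z' mu' A
  have hd' : ∀ l, Dff phi D eta (Z' l) (Z' (l + 1)) := fun l =>
    Or.inl (hT P L phi D q f' f a j eta k Z' mu' Z mu A.symm l).1
  have dis := hDis P L phi D q f f' a j eta k 0 Z mu Z' mu' A hd hd'
  have hj := alp_j3 A dis
  -- one orientation
  obtain ⟨Z2, mu2, i, A2, hdis2, hdf⟩ : ∃ (Z2 : ZMod (k + 3) → L)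
      (mu2 : ZMod (k + 3) → L →+ ℤ) (i : ZMod (k + 3)),
      Alp phi D q f f' a j eta k 0 Z2 mu2 Z' mu' ∧
      (∀ i l p, phi (Z2 i) p = 0 ∨ phi (Z' l) p = 0) ∧
      ∀ nu, Kil phi D (Z2 i) (Z2 (i + 1)) (eta (Z2 i) * tA) (eta (Z2 (i + 1)) * tC) nu →
        nu = 0 := by
    rcases hd 0 with h1 | h1
    · exact ⟨Z, mu, 0, A, dis, h1⟩
    · refine ⟨fun i => Z (1 - i), fun i => -mu (1 - i), 0, alp_rev A, fun i l p => dis _ l p, ?_⟩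
      have e1 : (1 : ZMod (k + 3)) - 0 = 0 + 1 := by ring
      have e2 : (1 : ZMod (k + 3)) - (0 + 1) = 0 := by ring
      change ∀ nu, Kil phi D (Z (1 - 0)) (Z (1 - (0 + 1))) (eta (Z (1 - 0)) * tA)
        (eta (Z (1 - (0 + 1))) * tC) nu → nu = 0
      rw [e1, e2]
      exact h1
  rcases hLn P L phi D q f f' a j eta k Z2 mu2 Z' mu' A2 hdis2 hj i 0 with h0 | ⟨s, m, g, hg, hm⟩
  · exact hMn P L phi D q f f' a j eta k Z2 mu2 Z' mu' hk A2 hdis2 hj i hdf 0 (Or.inl h0)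
  · by_cases h1 : m = 1
    · subst h1
      exact hM1 P L phi D q f f' a j eta k Z2 mu2 Z' mu' hk A2 hdis2 hj i hdf 0 s g hg hm
    · exact hMn P L phi D q f f' a j eta k Z2 mu2 Z' mu' hk A2 hdis2 hj i hdf 0
        (Or.inr ⟨s, m, g, hg, h1, hm⟩)

end Pool.Agent.B5.KO62
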