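import Pool.Agent.Lib.MP_b5021c_nt.KO.H62.Split5
import Pool.Agent.Lib.MP_b5021c_nt.KO.H96.Mix
import Pool.Agent.Lib.MP_b5021c_nt.KO.H40.G4

/-!
# Board b5, ALL `θ`, K ODD, leaf (O4), length four: assembly

`Ob44S` from the row `Kil4S` (no ray kills a 4-cycle), helper96's `ball_q4` and helper40's
`l4_false`.
-/

namespace Pool.Agent.B5

open scoped LaurentPolynomial
open Polynomial

/-- (KO_KIL4) if all cycles have length four, no outside ray kills a ray of a 4-cycle. -/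
def Kil4S : Prop := ∀ (P L : Type) [Fintype P] [DecidableEq P] [AddCommGroup L]
  [Module.Free ℤ L] [Module.Finite ℤ L] (phi : L →+ (P → ℤ)) (D : AO ℤ L) (q f : ℤ[X]) (a : ℝ)
  (j : ℕ) (eta : L → (RO ℤ)ˣ) (C : Set L) (Z : ZMod (1 + 3) → L)
  (mu : ZMod (1 + 3) → L →+ ℤ), KcB phi D q f a j eta 1 C →
    f.coeff 0 = 1 → f.coeff 1 - q.coeff 1 = j + 1 → Cyc phi D eta 1 Z mu →
      (∀ i, Z i ∈ C) → All4 phi D q a j → ∀ R, Ray D R → (∀ i, R ≠ Z i) →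
        ∀ (i : ZMod (1 + 3)) (e : (RO ℤ)ˣ), Z i ∈ US e R D

/-- (KO_L4F) every ray lies in a component and all components are 4-cycles: impossible. -/
def L4fS : Prop := ∀ (P L : Type) [Fintype P] [DecidableEq P] [AddCommGroup L]
  [Module.Free ℤ L] [Module.Finite ℤ L] (phi : L →+ (P → ℤ)) (D : AO ℤ L) (q : ℤ[X]) (a : ℝ)
  (j : ℕ) (eta : L → (RO ℤ)ˣ), Ko phi D q a j → KO.H40.Ball phi D q a j eta →
    O4X.Q4 phi D eta → False

namespace KO62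

theorem l4f (hU : UnitRS) (hM1 : M1S) (hMm : MmulS) (hMV : MVS) (hE1 : E1S) (hE2 : E2S)
    (hPc : PCZS) (hClp : ClpS) (hC0 : Coeff0S) (hG0 : G0S) (hI1 : Inj1S) (hRk : RkS)
    (hFD : FDS) (hWW : WWfS) (hRF : RayFacS) (hMug : MugS) (hMco : McoS) (hCu : H61.CuspS)
    (hSf : SfzS) (hTr : Nr.TrezS) (hTsa : TsaS) (hI3 : Io3S) (hMfc : MfcS) (hCa : Ca5S)
    (hGlc : GlcS) (hFou : FouS) (hDti : DtiS) (hNbr : NbrS) (hF1 : F1S) (hF2 : F2S)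
    (hKm : KmuS) (hFsp : FspS) (hVco : VcoS) (hRy : RaySpanS) (hVf : KvfS) (hVv : KvvS)
    (hT : TsgS) (hNd : Nd3vS) (hNr : Nr3S) (hRn : RnkS) (hO5 : H67.O5aS) (hBx : BpxS)
    (hBd : KO.H40.BpdqS) : L4fS := by
  intro P L _ _ _ _ _ phi D q a j eta hko hAll h4
  exact KO.H40.l4_false hU hM1 hMm hMV hE1 hE2 hPc hClp hC0 hG0 hI1 hRk hFD hWW hRF hMug hMco
    hCu hSf hTr hTsa hI3 hMfc hCa hGlc hFou hDti hNbr hF1 hF2 hKm hFsp hVco hRy hVf hVv hT hNd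
    hNr hRn hO5 hBx hBd hko hAll h4

theorem ob44 (hE2 : E2S) (hF3 : F3S) (hRkU : RkUSS) (hL : LMNS) (hMco : McoS) (hOfa : OfaS)
    (hOfb : OfbS) (hO1 : Oo1S) (hO4 : Oo4S) (hB2 : Ob2S) (hB3 : Ob3S) (hSf : SfzS)
    (hClp : ClpS) (hCyc : CycS)
    (hl4 : L4fS) (hKil : Kil4S) : Ob44S := by
  intro P L _ _ _ _ _ phi D q f a j eta C Z mu W hu hn hc hZ hAll
  obtain ⟨eta', hb, hq⟩ := KO.H96.ball_q4 hE2 hF3 hRkU hL hMco hOfa hOfb hO1 hO4 hB2 hB3 hSf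
    hClp hCyc W.ko hAll fun f' eta' C' Z' mu' W' hu' hn' hc' hZ' R hR hRZ i e =>
      hKil P L phi D q f' a j eta' C' Z' mu' W' hu' hn' hc' hZ' hAll R hR hRZ i e
  exact hl4 P L phi D q a j eta' W.ko hb hq

end KO62

end Pool.Agent.B5
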