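import Pool.Agent.Lib.MP_b5021c_nt.IfaceOC
import Pool.Agent.Lib.MP_b5021c_nt.KO.H62.Four
import Pool.Agent.Lib.MP_b5021c_nt.KE.H96.Ray

/-!
# Board b5, ALL `θ`, K ODD, leaf (O4), lengths four and more: the glue with IfaceOC.lean

`Ob44S` from helper35's rows.  Killers only at the designated loads `Des`.
-/

set_option linter.unusedSectionVars false

namespace Pool.Agent.B5.KO62

open scoped LaurentPolynomial
open Polynomial
open Pool.Agent.B5 Pool.Agent.B5.KO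

section

variable {P L : Type} [Fintype P] [DecidableEq P] [AddCommGroup L] [Module.Free ℤ L]
  [Module.Finite ℤ L] {phi : L →+ (P → ℤ)} {D : AO ℤ L} {q f : ℤ[X]} {a : ℝ} {j : ℕ}
  {eta : L → (RO ℤ)ˣ} {C : Set L}

/-- The constant coefficient of the closing at a designated load is not zero. -/
theorem des_v0 (hdes : Des phi D q a eta) {T : L} (hT : Ray D T) :
    D.coeff 0 + (eta T : RO ℤ) * D.coeff T ≠ 0 := by
  obtain ⟨f, e, hR, -, h | ⟨h, -, -⟩⟩ := hdes T hT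
  · rw [h]
    have h1 := KE.V0_ne hR (k := 1) le_rfl
    exact_mod_cast h1
  · rw [h]
    exact KE.V0_ne_A hR

/-- The designated loads: the component and its cycles. -/
theorem des_kcB (hE2 : E2S) (hOfa : OfaS) (hO1 : Oo1S) (W : KcB phi D q f a j eta 1 C) :
    ∃ eta' : L → (RO ℤ)ˣ, Des phi D q a eta' ∧ KcB phi D q f a j eta' 1 C ∧
      ∀ S ∈ C, eta' S = eta S := by
  obtain ⟨eta', hdes⟩ := des_exists hE2 hOfa hO1 W.ko
  have h1 := Kc_des W.kc hdes
  exact ⟨eta', hdes, KO.H96.KcB.congr W h1, h1⟩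

/-- (BALL) no component has a killer at the designated loads: every ray lies in a component. -/
theorem ball_des (hE2 : E2S) (hF3 : F3S) (hRk : RkUSS) (hL : LMNS) (hMco : McoS)
    (hOfb : OfbS) (hO4 : Oo4S) (hB2 : Ob2S) (hB3 : Ob3S) (hKo : Ko phi D q a j)
    (hdes : Des phi D q a eta)
    (hno : ∀ (f : ℤ[X]) (C : Set L), KcB phi D q f a j eta 1 C → f.coeff 0 = 1 →
      f.coeff 1 - q.coeff 1 = j + 1 → ∀ R, Ray D R → R ∉ C → ∀ S ∈ C, S ∈ US (eta R) R D) :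
    KO.H40.Ball phi D q a j eta := by
  have hD : DD phi D := hKo.min.fp.dd
  intro R hR
  by_contra hcon
  set N : Set L := {S | Ray D S ∧ ¬ ∃ (f : ℤ[X]) (C : Set L), KcB phi D q f a j eta 1 C ∧
    f.coeff 0 = 1 ∧ f.coeff 1 - q.coeff 1 = j + 1 ∧ S ∈ C} with hN
  set dm : L → ℕ := fun S => Module.finrank ℤ (US (eta S) S D) with hdm
  have hdmle : ∀ S, dm S ≤ Module.finrank ℤ L := fun S => Submodule.finrank_le _
  obtain ⟨S0, hS0, hmin⟩ := WellFounded.has_min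
    (measure (fun S : L => Module.finrank ℤ L - dm S)).wf N ⟨R, hR, hcon⟩
  have hmax0 : ∀ T ∈ N, dm T ≤ dm S0 := by
    intro T hT
    have h1 : ¬ (Module.finrank ℤ L - dm T < Module.finrank ℤ L - dm S0) := hmin T hT
    have h2 := hdmle T
    have h3 := hdmle S0
    omega
  have hfm : Fm D eta S0 := by
    refine ⟨hS0.1, fun T hT hTU hin => ?_⟩
    have hTN : T ∈ N := by
      refine ⟨hT, ?_⟩
      rintro ⟨f, C, W, hu, hn, hTC⟩
      have hS0C : S0 ∉ C := fun h => hS0.2 ⟨f, C, W, hu, hn, h⟩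
      exact hTU (hno f C W hu hn S0 hS0.1 hS0C T hTC)
    have h1 := (incl_US hF3 hD hS0.1 hT hTU hin).2
    have h2 : dm T ≤ dm S0 := hmax0 T hTN
    exact absurd h1 (by simpa only [hdm, not_lt] using h2)
  obtain ⟨g, f, e, -, hu, -, W, hn, hg⟩ :=
    hfm.kcZ hE2 hF3 hRk hL hMco hOfb hO4 hB2 hKo hdes
  rcases hg with rfl | rfl
  · exact hS0.2 ⟨f, Comp D eta S0, W, hu, hn, Relation.ReflTransGen.refl⟩
  · exact hB3 P L phi D q f a j eta _ W hu hn

end

/-- Only 4-cycles: impossible. -/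
theorem ob44' (hE2 : E2S) (hF3 : F3S) (hRkU : RkUSS) (hL : LMNS) (hMco : McoS) (hOfa : OfaS)
    (hOfb : OfbS) (hO1 : Oo1S) (hO4 : Oo4S) (hB2 : Ob2S) (hB3 : Ob3S) (hSf : SfzS)
    (hClp : ClpS) (hCyc : CycS) (hl4 : L4fS) (hPre : OC.PreS) (hKa : OC.K4aS)
    (hKb : OC.K4bS) : Ob44S := by
  intro P L _ _ _ _ _ phi D q f a j eta0 C Z mu W0 hu hn hc0 hZ hAll
  obtain ⟨eta, hdes, W, -⟩ := des_kcB hE2 hOfa hO1 W0
  have hb : KO.H40.Ball phi D q a j eta := by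
    refine ball_des hE2 hF3 hRkU hL hMco hOfb hO4 hB2 hB3 W.ko hdes ?_
    intro f' C' W' hu' hn' R hR hRC S hS
    obtain ⟨k, Z', mu', h', h0, hZ'⟩ := KO.H96.cyc_ex hSf hClp hCyc W' hu' hS
    have hk := hAll f' eta C' k Z' mu' W' hu' hn' h' hZ'
    subst hk
    by_contra hcon
    refine OC.k4 hPre hKa hKb W' hdes hu' hn' h' hZ' R ⟨hR, ?_, des_v0 hdes hR, 0, by
      rw [h0]; exact hcon⟩
    intro i hi
    exact hRC (hi ▸ hZ' i)
  refine hl4 P L phi D q a j eta W.ko hb fun T hT => ?_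
  obtain ⟨f', C', W', hu', hn', hTC⟩ := hb T hT
  obtain ⟨k, Z', mu', h', h0, hZ'⟩ := KO.H96.cyc_ex hSf hClp hCyc W' hu' hTC
  have hk := hAll f' eta C' k Z' mu' W' hu' hn' h' hZ'
  subst hk
  exact ⟨Z', mu', h', h0⟩

end Pool.Agent.B5.KO62
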