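import Pool.Agent.Lib.MP_b5021c_nt.IfaceOC
import Pool.Agent.Lib.MP_b5021c_nt.KO.H40.Side
import Pool.Agent.Lib.MP_b5021c_nt.BP.H80.Exf

/-!
# Board b5, ALL `θ`, K ODD: the exports of THEOREM B' under the names of IfaceOC.lean (helper62)
-/

namespace Pool.Agent.B5.KO62

open Pool.Agent.B5

theorem bxd (h : KO.H40.BpdqS) : OC.BxdS := h

theorem bpdq (h : OC.BxdS) : KO.H40.BpdqS := h

theorem bxf (h : BP80.BpfS) : OC.BxfS := h

end Pool.Agent.B5.KO62
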