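import Pool.Agent.Lib.MP_b5021c_nt.KO.H62.Oal
import Pool.Agent.Lib.MP_b5021c_nt.KO.H57.Ln4

/-!
# Board b5, K odd, (O4), ALPHA: the rows `Df4AS`, `DisAS`, `LnAS` (helper62: wrappers)
-/

namespace Pool.Agent.B5.KO62

open scoped LaurentPolynomial
open Polynomial
open Pool.Agent.B5 Pool.Agent.B5.KE Pool.Agent.B5.KO.H40 Pool.Agent.B5.KO29
open Pool.Agent.B5.Nr (TrezS)
open Pool.Agent.B5.H61 (CuspS)
open Pool.Agent.B5.O4X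
open Pool.Agent.B5.KO.H96 (Alp Oal3S)

/-- (R3, `k = 1`) -/
theorem df4a
    (hOfa : OfaS) (hO1 : Oo1S) (hTop : TopS) (hQs : QsgS) (hCz : CzaS) (hTz : TzaS) (hFj : FjtS)
    (hGa : GaiS) (hNz : NdzS) (hNd3 : Nd3S) (hTa : Ta3S) (hLd : LdzS) (hRW : ResWDS)
    (hRs : ResStS) (hRes : ResKS) (hFact : FactS) (hC4 : C4S) (hThin : ThinS) (hMin : MinS)
    (hB5a : B5aS) (hUA : UnitAS) (hFcm : FcmS) (hM1 : M1S) (hMm : MmulS) (hMV : MVS) (hE1 : E1S)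
    (hE2 : E2S) (hPc : PCZS) (hClp : ClpS) (hC0 : Coeff0S) (hG0 : G0S) (hI1 : Inj1S) (hRk : RkS)
    (hFD : FDS) (hWW : WWfS) (hRF : RayFacS) (hMug : MugS) (hMco : McoS) (hCu : CuspS)
    (hSf : SfzS) (hTr : TrezS) (hTsa : TsaS) (hI3 : Io3S) (hMfc : MfcS) (hCa : Ca5S)
    (hGlc : GlcS) (hFou : FouS) (hDti : DtiS) (hNbr : NbrS) (hF1 : F1S) (hF2 : F2S) (hKm : KmuS)
    (hFsp : FspS) (hVco : VcoS) (hRy : RaySpanS) (hVf : KvfS) (hVv : KvvS) (hT : TsgS)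
    (hNd : Nd3vS) (hNr : Nr3S) (hB : BpS) (hF3 : F3S) (hRkU : RkUSS) (hL : LMNS) (hOfb : OfbS)
    (hO4 : Oo4S) (hB2 : Ob2S) (hB3 : Ob3S) :
    Df4AS := by
  intro P L _ _ _ _ _ phi D q f f' a j eta k' Z mu Z' mu' A i
  exact df4m_all
    hOfa hO1 hTop hQs hCz hTz hFj hGa hNz hNd3 hTa hLd hRW hRs hRes hFact hC4 hThin hMin hB5a
    hUA hFcm hM1 hMm hMV hE1 hE2 hPc hClp hC0 hG0 hI1 hRk hFD hWW hRF hMug hMco hCu hSf hTr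
    hTsa hI3 hMfc hCa hGlc hFou hDti hNbr hF1 hF2 hKm hFsp hVco hRy hVf hVv hT hNd hNr hB hF3
    hRkU hL hOfb hO4 hB2 hB3
    A.w A.u A.n A.c (fun n => ⟨n, rfl⟩) i

/-- (R8) -/
theorem disa
    (hU : UnitRS) (hM1 : M1S) (hMm : MmulS) (hMV : MVS) (hE1 : E1S) (hE2 : E2S) (hPc : PCZS)
    (hClp : ClpS) (hC0 : Coeff0S) (hG0 : G0S) (hI1 : Inj1S) (hRk : RkS) (hFD : FDS) (hWW : WWfS)
    (hRF : RayFacS) (hMug : MugS) (hMco : McoS) (hCu : CuspS) (hSf : SfzS) (hTr : TrezS)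
    (hTsa : TsaS) (hI3 : Io3S) (hMfc : MfcS) (hCa : Ca5S) (hGlc : GlcS) (hFou : FouS)
    (hDti : DtiS) (hF1 : F1S) (hRy : RaySpanS) (hRn : RnkS) (hO5 : H67.O5aS) (hBx : BpxS)
    (hBd : BpdqS) :
    DisAS := by
  intro P L _ _ _ _ _ phi D q f f' a j eta k k' Z mu Z' mu' A hd hd'
  exact alp_dis
    hU hM1 hMm hMV hE1 hE2 hPc hClp hC0 hG0 hI1 hRk hFD hWW hRF hMug hMco hCu hSf hTr hTsa hI3
    hMfc hCa hGlc hFou hDti hF1 hRy hRn hO5 hBx hBd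
    A hd hd'

/-- (R1) -/
theorem lna
    (hMm : MmulS) (hMV : MVS) (hE1 : E1S) (hClp : ClpS) (hC0 : Coeff0S) (hG0 : G0S)
    (hI1 : Inj1S) (hRk : RkS) (hFD : FDS) (hWW : WWfS) (hRF : RayFacS) (hMug : MugS)
    (hMco : McoS) (hTr : TrezS) (hTsa : TsaS) (hF : FspS) (hRS : RaySpanS) (hE2 : E2S)
    (hF1 : F1S) (hVZ : VZS) (hU : UnitRS) (hUA : UnitAS) (hPc : PCZS) (hCu : CuspS) (hSf : SfzS)
    (hI3 : Io3S) (hMfc : MfcS) (hCa : Ca5S) (hGlc : GlcS) (hFou : FouS) (hDti : DtiS)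
    (hFcm : FcmS) (hG1 : G1pS) (hRW : ResWDS) (hRs : ResStS) (hEv : EvS) (hEvm : EvmS)
    (hFcl : FclS) (hMp : MpaS) (hD2 : D2S) (hF2 : F2S) (hMin : MinS) (hKm : KmuS) (hSm : SmallS)
    (hEvz : EvzS) (hTrm : TrmS) (hPsz : Nr.PszRS) (hPmf : PmfS) (hSnr : Nr.SnrS) (hEvR : EvRS)
    (hMu : MultiS) (hSS : StSpecS) (hCn : CnfS) :
    LnAS := by
  intro P L _ _ _ _ _ phi D q f f' a j eta k Z mu Z' mu' A hd hj i l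
  exact KO57.ln
    hMm hMV hE1 hClp hC0 hG0 hI1 hRk hFD hWW hRF hMug hMco hTr hTsa hF hRS hE2 hF1 hVZ hU hUA
    hPc hCu hSf hI3 hMfc hCa hGlc hFou hDti hFcm hG1 hRW hRs hEv hEvm hFcl hMp hD2 hF2 hMin
    hKm hSm hEvz hTrm hPsz hPmf hSnr hEvR hMu hSS hCn
    A hd hj i l

end Pool.Agent.B5.KO62
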