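import Pool.Agent.Lib.MP_b5021c_nt.KO.H62.Oal
import Pool.Agent.Lib.MP_b5021c_nt.KO.H13.TkG
import Pool.Agent.Lib.MP_b5021c_nt.KO.H13.TkE
import Pool.Agent.Lib.MP_b5021c_nt.KO.H90.TkBc
import Pool.Agent.Lib.MP_b5021c_nt.KO.H96.Min2
import Pool.Agent.Lib.MP_b5021c_nt.KO.H52.Rk3
import Pool.Agent.Lib.MP_b5021c_nt.KO.H95.Gz
import Pool.Agent.Lib.MP_b5021c_nt.KO.H02.TkD

/-!
# Board b5, K odd, (O4), ALPHA, TK3: the last glue (helper62)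
-/

set_option linter.unusedSectionVars false

namespace Pool.Agent.B5.KO62

open scoped LaurentPolynomial
open Polynomial
open Pool.Agent.B5 Pool.Agent.B5.KE
open Pool.Agent.B5.O4X
open Pool.Agent.B5.KO.H96 (Alp WKil)
open Pool.Agent.B5.KO52
open Pool.Agent.B5.KO.H40 (flt flt_in flt_out)
open Pool.Agent.B5.KO.H71 (Tri Fr)

section

variable {P L : Type} [Fintype P] [DecidableEq P] [AddCommGroup L] [Module.Free ℤ L]
  [Module.Finite ℤ L] {phi : L →+ (P → ℤ)} {D : AO ℤ L} {eta : L → (RO ℤ)ˣ}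
  {q f f' : ℤ[X]} {a : ℝ} {j k' : ℕ} {Z : ZMod 3 → L} {mu : ZMod 3 → L →+ ℤ}
  {Z' : ZMod (k' + 3) → L} {mu' : ZMod (k' + 3) → L →+ ℤ} {T : L} {e : (RO ℤ)ˣ} {nuC : L →+ ℤ}

theorem tk3_false
    (hQsg : QsgS) (hCza : CzaS) (hTza : TzaS) (hFjt : FjtS) (hGai : GaiS) (hNdz : NdzS)
    (hNd3 : Nd3S) (hNr3 : Nr3S) (hTa3 : Ta3S) (hLdz : LdzS) (hMco : McoS) (hF1 : F1S) (hF2 : F2S)
    (hF3 : F3S) (hFD : FDS) (hE1 : E1S) (hE2 : E2S) (hMV : MVS) (hMmul : MmulS) (hM1 : M1S)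
    (hKmu : KmuS) (hRk : RkS) (hResWD : ResWDS) (hResSt : ResStS) (hRaySpan : RaySpanS)
    (hSmall : SmallS) (hRayFac : RayFacS) (hInj1 : Inj1S) (hVco : VcoS) (hFsp : FspS)
    (hFcm : FcmS) (hPCZ : PCZS) (hClp : ClpS) (hSfz : SfzS) (hIo3 : Io3S) (hMfc : MfcS)
    (hCa5 : Ca5S) (hGlc : GlcS) (hFou : FouS) (hDti : DtiS) (hCusp : H61.CuspS) (hTop : TopS)
    (hRkUS : RkUSS) (hLMN : LMNS) (hOfb : OfbS) (hOo4 : Oo4S) (hOb2 : Ob2S) (hMulti : MultiS)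
    (hStSpec : StSpecS) (hFace : FaceS) (hEvR : EvRS) (hZfin : ZfinS) (hSlEval : SlEvalS)
    (hCompl : ComplS) (hComplIrr : ComplIrrS) (hSharp : SharpS) (hUnitA : UnitAS) (hDens : DensS)
    (hB4 : B4S) (hMin : MinS) (hCoeff0 : Coeff0S) (hWWf : WWfS) (hThin : ThinS) (hC3 : C3S)
    (hC4 : C4S) (hPrim : PrimS) (hA1 : A1S)
    (h3 : Tk3 phi D q f f' a j eta k' Z mu Z' mu' T e nuC) : False := by
  classical
  by_cases hK : ∀ nu : L →+ ℤ, WKil phi D (Z 0) T (eta (Z 0)) (ld e 1) nu → nu (Z 1) = 0 → nu = 0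
  · exact KO90.tk_bd
      hQsg hCza hTza hFjt hGai hNdz hNd3 hNr3 hTa3 hLdz hMco hF1 hF2 hF3 hFD hE1 hE2 hMV hMmul
      hM1 hKmu hRk hResWD hResSt hRaySpan hSmall hRayFac hInj1 hVco hFsp hFcm hPCZ hClp hSfz
      hIo3 hMfc hCa5 hGlc hFou hDti hCusp
      h3 hK
  push Not at hK
  obtain ⟨nu0, hw0, h10, hne⟩ := hK
  obtain ⟨J, i1, i2, i3, R, nu, M⟩ := KO.H96.tk3_min
    hTop hRaySpan hRk hF1 hF2 hF3 hInj1 hE2 hRkUS hLMN hMco hOfb hOo4 hOb2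
      h3 (n := 0) hw0 (by rw [zero_add]; exact h10) hne
  have Ms := KO.H96.mins_of hF1 hF2 hF3 h3 M
  have h := Tk3.tf
    hMmul hPCZ hClp hFD hE1 hMV hSfz hIo3 hMfc hCa5 hGlc hFou hDti hCusp
      h3
  obtain ⟨V, hTD⟩ := Tf.tkD hFcm hMco hF1 hF2 hF3 h 0
  have hD := h.dd
  have port : ∀ {S : L}, Ray D S → ∃ s, phi S s = 1 := by
    intro S hS
    by_contra hcon
    push Not at hcon
    apply hS.2.1
    apply hD.inj
    rw [map_zero]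
    ext s
    exact (hD.bin _ hS.1 s).resolve_right (hcon s)
  obtain ⟨iT, hT⟩ := port h.rT
  obtain ⟨p, hp⟩ := port (h.ray 0)
  have hT' : co phi iT T = 1 := hT
  obtain ⟨z, hzd⟩ : ∃ z : ZMod 3 → Ker (co phi iT), z = fun i => ⟨Z i, h.zk hF2 hT' i⟩ := ⟨_, rfl⟩
  have hz : ∀ i, (z i : L) = Z i := fun i => by rw [hzd]
  obtain ⟨hdd, hfr, bb, hbb0, hbb1, hbb2, hPW⟩ := Tf.full
    hSfz hMmul hPCZ hClp hRk hFD hE1 hMV hM1 hF1 hF2 hInj1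
      h hTD hT'
  have htri := h.triz hE2 hF2 hT' hz
  have hj := h.ko.j2
  have h2 : 2 ≤ Module.finrank ℤ (Ker (co phi iT)) := by omega
  obtain ⟨hW0z, -⟩ := hE2 ℤ P _ _ _ hdd h2
  have hz0 := h.rim hFsp hRaySpan hE2 hF1 hF2 hT' 0 (hz 0)
  have hTp : phi T p = 0 := (h.dis hF2 0 p).resolve_right (by rw [hp]; exact one_ne_zero)
  have hpz : phO phi T iT (z 0) p = 1 := by
    rw [phO_eq _ hTp, hz]
    exact hp
  have hG0 : (g0 (phO phi T iT) (cl (co phi iT) T hT' (ld e 1) D) z (fun i => eta (Z i))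
      (fun i => (mu i).comp (incl (Ker (co phi iT)))) p).coeff 0 =
      toLaurent (q + X * ((1 - X - X ^ 2) * f) + X * ((1 + X) * f)) := by
    rw [g0_zero, h.cz0 hT', map_add toLaurent (q + X * ((1 - X - X ^ 2) * f)),
      ← h.cz hF1 hF2 hT' 0 (hz 0)]
  have hG0ne : (g0 (phO phi T iT) (cl (co phi iT) T hT' (ld e 1) D) z (fun i => eta (Z i))
      (fun i => (mu i).comp (incl (Ker (co phi iT)))) p).coeff 0 ≠ 0 := by
    rw [hG0]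
    intro h0
    have h1 := congrArg (fun g : ℤ[X] => g.coeff 0) (toLaurent_eq_zero.mp h0)
    simp only [coeff_add, coeff_X_mul_zero, h.loc.q0, coeff_zero, add_zero] at h1
    exact one_ne_zero h1
  have hst := KO.H95.g0_stable hMulti hStSpec hFace hEvR htri hF1 hdd.inj hdd.bin hdd.st
    hpz hW0z hG0ne
  have hA := fun w u => KO2.dtA
    hMulti hStSpec hFace hEvR hZfin hSlEval hRaySpan hF1 hF2 hF3 hE2
      h hT' hp w u
  rw [← hzd] at hA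
  have hn1 : ∀ x ∈ supp (g0 (phO phi T iT) (cl (co phi iT) T hT' (ld e 1) D) z
      (fun i => eta (Z i)) (fun i => (mu i).comp (incl (Ker (co phi iT)))) p),
      nu (x : L) = 0 := fun x hx => wk_g0 hE2 hF1 hF2 h hT' hdd hp hz M.wk hx
  have hdZT : ∀ i, Dj phi (Z i) T := fun i => h.dis hF2 i
  have hn2 : ∀ x ∈ supp (cl (co phi iT) T hT' (ld e 1)
      (flt {v | (∀ i ∈ (Finset.univ : Finset J), Dj phi (R i) v) ∧ Dj phi T v}
        (psi phi D Z (fun i => eta (Z i)) mu))), nu (x : L) = 0 := by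
    intro x hx
    have hx' : (cl (co phi iT) T hT' (ld e 1)
      (flt {v | (∀ i ∈ (Finset.univ : Finset J), Dj phi (R i) v) ∧ Dj phi T v}
        (psi phi D Z (fun i => eta (Z i)) mu))).coeff x ≠ 0 := hx
    rw [e_co hT' hD.bin hdZT _ _ (fun v hv => hv.2) x] at hx'
    by_cases hx2 : (x : L) ∈ {v | (∀ i ∈ (Finset.univ : Finset J), Dj phi (R i) v) ∧ Dj phi T v}
    · rw [flt_in _ hx2] at hx'
      have h1 := kp_psi hRaySpan hE2 h Ms hx' (fun i => hx2.1 i (Finset.mem_univ i))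
      rw [← h1, kp_of nu Z mu ((psi_supp hx').1.2 1)]
    · exact absurd (flt_out _ hx2) hx'
  have hrk := KO52.rk_dt
    hTop hRk hVco hF1 hF2 hF3 hInj1 hE2 hRkUS hLMN hMco hOfb hOo4 hOb2
      h3 M (Classical.arbitrary J) hT' hz hp hdd h2 htri hz0.1.1 hn1 hn2
  obtain ⟨P', L', i4, i5, i6, i7, i8, phi', D', hD', hr', h0'⟩ := tk_dg
    hFace hEvR hCompl hComplIrr hSharp hUnitA hDens hB4 hMin hCoeff0 hWWf hThin hC3 hC4 hPrim hE1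
    hMV hM1 hA1 hResWD hResSt hStSpec hE2 hF1 hF2 hF3 hRaySpan hFsp hSfz hMmul hPCZ hClp hRk hFD
    hInj1
      h hTD hT' hp hz Ms hA hst hrk
  exact dt_end hCza hLdz hTD h.ko.ih hdd h2 hPW hz0.1 (h.cz0 hT')
    (h.cz hF1 hF2 hT' 0 (hz 0)) hD' hr' h0'

end

/-- (R3, `k = 0`) -/
theorem tk3as
    (hTop : TopS) (hOfa : OfaS) (hOo1 : Oo1S) (hM1 : M1S) (hMmul : MmulS) (hMV : MVS) (hE1 : E1S)
    (hE2 : E2S) (hPCZ : PCZS) (hClp : ClpS) (hCoeff0 : Coeff0S) (hG0 : G0S) (hInj1 : Inj1S)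
    (hRk : RkS) (hFD : FDS) (hWWf : WWfS) (hRayFac : RayFacS) (hMug : MugS) (hMco : McoS)
    (hCusp : H61.CuspS) (hSfz : SfzS) (hTrez : Nr.TrezS) (hTsa : TsaS) (hIo3 : Io3S) (hMfc : MfcS)
    (hCa5 : Ca5S) (hGlc : GlcS) (hFou : FouS) (hDti : DtiS) (hNbr : NbrS) (hF1 : F1S) (hF2 : F2S)
    (hKmu : KmuS) (hFsp : FspS) (hVco : VcoS) (hRaySpan : RaySpanS) (hKvf : KvfS) (hKvv : KvvS)
    (hTsg : TsgS) (hNd3v : Nd3vS) (hNr3 : Nr3S) (hBp : BpS) (hF3 : F3S) (hRkUS : RkUSS)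
    (hLMN : LMNS) (hOfb : OfbS) (hOo4 : Oo4S) (hOb2 : Ob2S) (hOb3 : Ob3S) (hQsg : QsgS)
    (hCza : CzaS) (hTza : TzaS) (hFjt : FjtS) (hGai : GaiS) (hNdz : NdzS) (hNd3 : Nd3S)
    (hTa3 : Ta3S) (hLdz : LdzS) (hResWD : ResWDS) (hResSt : ResStS) (hSmall : SmallS)
    (hFcm : FcmS) (hMulti : MultiS) (hStSpec : StSpecS) (hFace : FaceS) (hEvR : EvRS)
    (hZfin : ZfinS) (hSlEval : SlEvalS) (hCompl : ComplS) (hComplIrr : ComplIrrS)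
    (hSharp : SharpS) (hUnitA : UnitAS) (hDens : DensS) (hB4 : B4S) (hMin : MinS) (hThin : ThinS)
    (hC3 : C3S) (hC4 : C4S) (hPrim : PrimS) (hA1 : A1S) :
    Tk3AS := by
  intro P L _ _ _ _ _ phi D q f f' a j eta k' Z mu Z' mu' A i
  exact tk3_red
    hTop hOfa hOo1 hM1 hMmul hMV hE1 hE2 hPCZ hClp hCoeff0 hG0 hInj1 hRk hFD hWWf hRayFac hMug
    hMco hCusp hSfz hTrez hTsa hIo3 hMfc hCa5 hGlc hFou hDti hNbr hF1 hF2 hKmu hFsp hVco hRaySpan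
    hKvf hKvv hTsg hNd3v hNr3 hBp hF3 hRkUS hLMN hOfb hOo4 hOb2 hOb3
    A (fun et T e nuC h3 => tk3_false
    hQsg hCza hTza hFjt hGai hNdz hNd3 hNr3 hTa3 hLdz hMco hF1 hF2 hF3 hFD hE1 hE2 hMV hMmul hM1
    hKmu hRk hResWD hResSt hRaySpan hSmall hRayFac hInj1 hVco hFsp hFcm hPCZ hClp hSfz hIo3 hMfc
    hCa5 hGlc hFou hDti hCusp hTop hRkUS hLMN hOfb hOo4 hOb2 hMulti hStSpec hFace hEvR hZfin
    hSlEval hCompl hComplIrr hSharp hUnitA hDens hB4 hMin hCoeff0 hWWf hThin hC3 hC4 hPrim hA1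
      h3) i

end Pool.Agent.B5.KO62
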