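import Pool.Agent.Lib.MP_b5021c_nt.UF.H83.Gen

/-!
# Board b5, K odd, `l = 3`, ALPHA, row UFO: the structure for slack two (helper62)

As `Ufdg` with `finrank = 2N` and lead value `N + 1` (slack two).
-/

namespace Pool.Agent.B5.KO62

open scoped LaurentPolynomial
open Pool.Agent.B5 Polynomial

section

variable {P : Type} [Fintype P] [DecidableEq P] {L : Type} [AddCommGroup L] [Module.Free ℤ L]
  [Module.Finite ℤ L]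

/-- `Ufdg` with slack two. -/
structure Ufs (phi : L →+ (P → ℤ)) (E : AO ℤ L) (S : L) (i0 : P) (h : co phi i0 S = 1)
    (eta : (RO ℤ)ˣ) (N : ℕ) (p0 p1 : ℤ[X]) (u0 : (RO ℤ)ˣ) : Prop where
  dd : DD phi E
  ray : Ray E S
  N3 : 3 ≤ N
  rkL : Module.finrank ℤ L = 2 * N
  cst : ∃ n : ℤ, ∀ a k, ((cl (co phi i0) S h eta E).coeff a).coeff k ≠ 0 → k = n
  ns : ∀ (b : Ker (co phi i0)) (e : (RO ℤ)ˣ), b ≠ 0 →
    ¬ (1 - AddMonoidAlgebra.single b (e : RO ℤ)) ∣ cl (co phi i0) S h eta E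
  e0 : (u0 : RO ℤ) * E.coeff 0 = toLaurent p0
  e1 : (u0 : RO ℤ) * ((eta : RO ℤ) * E.coeff S) = -toLaurent p1
  p00 : p0.coeff 0 = (N : ℤ) + 1
  p10 : p1.coeff 0 = 1
  zf : ∀ z : ℂ, ‖z‖ < 1 → aeval z p0 ≠ 0

end

/-- (UFO_AV) the averages, slack two. -/
def UavoS : Prop := ∀ (P L : Type) [Fintype P] [DecidableEq P] [AddCommGroup L]
  [Module.Free ℤ L] [Module.Finite ℤ L] (phi : L →+ (P → ℤ)) (E : AO ℤ L) (S : L) (i0 : P)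
  (h : co phi i0 S = 1) (eta : (RO ℤ)ˣ) (c : RO ℤ) (n0 : ℕ)
  (G : Fin n0 → AO ℤ (Ker (co phi i0))) (N : ℕ) (p0 p1 : ℤ[X]) (u0 : (RO ℤ)ˣ) (m : ℕ),
    DD phi E → Ray E S → Zfg phi E S i0 h eta c n0 G → 3 ≤ N →
    ClassV ((N : ℝ) + 1) (E.coeff 0) → Module.finrank ℤ L = 2 * N →
    (u0 : RO ℤ) * E.coeff 0 = toLaurent p0 →
    (u0 : RO ℤ) * ((eta : RO ℤ) * E.coeff S) = -toLaurent p1 → p0.coeff 0 = (N : ℤ) + 1 →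
    p1.coeff 0 = 1 → IsUnit c → 1 ≤ m →
      ∃ (K : Submodule ℤ L) (E' : AO ℤ K) (S' : K) (h' : co (phi.comp (incl K)) i0 S' = 1)
        (eta' u0' : (RO ℤ)ˣ) (q0 q1 : ℤ[X]),
        Ufs (phi.comp (incl K)) E' S' i0 h' eta' N q0 q1 u0' ∧
        (∀ j, q0.coeff j = p0.coeff (m * j)) ∧ ∀ j, q1.coeff j = p1.coeff (m * j)

/-- (UFO_W) -/
def UfwoS : Prop := ∀ (P L : Type) [Fintype P] [DecidableEq P] [AddCommGroup L]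
  [Module.Free ℤ L] [Module.Finite ℤ L] (phi : L →+ (P → ℤ)) (E : AO ℤ L) (S : L) (i0 : P)
  (h : co phi i0 S = 1) (eta : (RO ℤ)ˣ) (N : ℕ) (p0 p1 : ℤ[X]) (u0 : (RO ℤ)ˣ),
    Ufs phi E S i0 h eta N p0 p1 u0 → Bnk (2 * N - 1) →
      p0 = C (N : ℤ) + p1 ∧
      (aeval (1 / (N : ℝ)) p1 : ℝ) ≤ 1 + 1 / ((N : ℝ) - 1) ∧
      (aeval (-(1 / (N : ℝ))) p1 : ℝ) ≤ 1 + 1 / ((N : ℝ) - 1)

end Pool.Agent.B5.KO62
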