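import Pool.Agent.Lib.MP_b5021c_nt.KO.H62.Ufw
import Pool.Agent.Lib.MP_b5021c_nt.KO.H52.Ufo

/-!
# Board b5, K odd, `l = 3`, ALPHA, row UFO: the conclusion (helper62)
-/

namespace Pool.Agent.B5.KO62

open scoped LaurentPolynomial
open Pool.Agent.B5 Polynomial

/-- Lemma UF with slack two: the bounds of all truncations. -/
theorem ufo_bd (hU : UavoS) (hW : UfwoS) {P L : Type} [Fintype P] [DecidableEq P]
    [AddCommGroup L] [Module.Free ℤ L] [Module.Finite ℤ L] {phi : L →+ (P → ℤ)} {E : AO ℤ L}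
    {S : L} {i0 : P} {h : co phi i0 S = 1} {eta : (RO ℤ)ˣ} {c : RO ℤ} {n0 : ℕ}
    {G : Fin n0 → AO ℤ (Ker (co phi i0))} {N : ℕ} {p0 p1 : ℤ[X]} {u0 : (RO ℤ)ˣ}
    (hD : DD phi E) (hR : Ray E S) (hZ : Zfg phi E S i0 h eta c n0 G) (hN : 3 ≤ N)
    (hV : ClassV ((N : ℝ) + 1) (E.coeff 0)) (hrk : Module.finrank ℤ L = 2 * N)
    (hB : Bnk (2 * N - 1)) (he0 : (u0 : RO ℤ) * E.coeff 0 = toLaurent p0)
    (he1 : (u0 : RO ℤ) * ((eta : RO ℤ) * E.coeff S) = -toLaurent p1)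
    (hp0 : p0.coeff 0 = (N : ℤ) + 1) (hp1 : p1.coeff 0 = 1) (hc : IsUnit c) :
    ∃ F : ℤ[X], p0 = C ((N : ℤ) + 1) + F ∧ p1 = 1 + F ∧ F.coeff 0 = 0 ∧
      ∀ (m : ℕ) (G : ℤ[X]), 1 ≤ m → (∀ j, G.coeff j = F.coeff (m * j)) →
        (aeval (1 / (N : ℝ)) G : ℝ) ≤ 1 / ((N : ℝ) - 1) ∧
        (aeval (-(1 / (N : ℝ))) G : ℝ) ≤ 1 / ((N : ℝ) - 1) := by
  refine ⟨p1 - 1, ?_, by ring, by rw [coeff_sub, hp1, coeff_one_zero, sub_self], ?_⟩
  · obtain ⟨K, E', S', h', eta', u0', q0, q1, H, hq0, hq1⟩ :=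
      hU P L phi E S i0 h eta c n0 G N p0 p1 u0 1 hD hR hZ hN hV hrk he0 he1 hp0 hp1 hc le_rfl
    obtain ⟨h1, -, -⟩ := hW P K _ E' S' i0 h' eta' N q0 q1 u0' H hB
    have h2 : q0 = p0 := by
      ext j
      rw [hq0, one_mul]
    have h3 : q1 = p1 := by
      ext j
      rw [hq1, one_mul]
    rw [h2, h3] at h1
    rw [h1, map_add, map_one]
    ring
  · intro m G hm hG
    obtain ⟨K, E', S', h', eta', u0', q0, q1, H, -, hq1⟩ :=
      hU P L phi E S i0 h eta c n0 _ N p0 p1 u0 m hD hR hZ hN hV hrk he0 he1 hp0 hp1 hc hm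
    obtain ⟨-, h1, h2⟩ := hW P K _ E' S' i0 h' eta' N q0 q1 u0' H hB
    have h3 : G = q1 - 1 := by
      ext j
      rw [hG, coeff_sub, coeff_sub, hq1, coeff_one, coeff_one]
      have h4 : m * j = 0 ↔ j = 0 := by
        constructor
        · intro h5
          rcases Nat.mul_eq_zero.1 h5 with h6 | h6
          · omega
          · exact h6
        · intro h5
          rw [h5, mul_zero]
      by_cases h5 : j = 0
      · rw [if_pos (h4.2 h5), if_pos h5]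
      · rw [if_neg (fun h6 => h5 (h4.1 h6)), if_neg h5]
    rw [h3, map_sub, map_sub, map_one, map_one]
    exact ⟨by linarith, by linarith⟩

/-- The unitary closing with slack two contradicts `q(1/(N+1)) > 0`. -/
theorem ufo_false (hU : UavoS) (hW : UfwoS) {P L : Type} [Fintype P] [DecidableEq P]
    [AddCommGroup L] [Module.Free ℤ L] [Module.Finite ℤ L] {phi : L →+ (P → ℤ)} {E : AO ℤ L}
    {S : L} {i0 : P} {h : co phi i0 S = 1} {eta : (RO ℤ)ˣ} {c : RO ℤ} {n0 : ℕ}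
    {G : Fin n0 → AO ℤ (Ker (co phi i0))} {N : ℕ} {p0 p1 f q : ℤ[X]} {u0 : (RO ℤ)ˣ}
    (hD : DD phi E) (hR : Ray E S) (hZ : Zfg phi E S i0 h eta c n0 G) (hN : 3 ≤ N)
    (hV : ClassV ((N : ℝ) + 1) (E.coeff 0)) (hrk : Module.finrank ℤ L = 2 * N)
    (hB : Bnk (2 * N - 1)) (he0 : (u0 : RO ℤ) * E.coeff 0 = toLaurent p0)
    (he1 : (u0 : RO ℤ) * ((eta : RO ℤ) * E.coeff S) = -toLaurent p1)
    (hp0 : p0.coeff 0 = (N : ℤ) + 1) (hf0 : f.coeff 0 = 1) (hc : IsUnit c)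
    (hp1 : p1 = (1 + X) * f) (hq : X * p0 = f - q)
    (hlt : 0 < (aeval (1 / ((N : ℝ) + 1)) q : ℝ)) : False := by
  have hp10 : p1.coeff 0 = 1 := by
    rw [hp1, add_mul, one_mul, coeff_add, coeff_X_mul_zero, hf0, add_zero]
  obtain ⟨F, h0, h1, h2, h3⟩ := ufo_bd hU hW hD hR hZ hN hV hrk hB he0 he1 hp0 hp10 hc
  obtain ⟨-, h4⟩ := Ufo.ufo1 N F f q hN h2 h3 (by rw [← hp1, h1]) (by
    have h5 : F = (1 + X) * f - 1 := by rw [← hp1, h1]; ring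
    have h6 : q = f - X * p0 := by rw [hq]; ring
    rw [h6, h0, h5, map_add, map_one]
    ring)
  linarith

end Pool.Agent.B5.KO62
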