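import Pool.Agent.Lib.MP_b5021c_nt.KO.H62.Split
import Pool.Agent.Lib.MP_b5021c_nt.KO.H96.Red2

/-!
# Board b5, ALL `θ`, K ODD, leaf (O4): the split with the reduction of KO/H96/Red2.lean

`Ob4S` from `Ob45S` (length at least five), `Bet43S` (PURE BETA), `Alp43S` (ALPHA, the closed triple is
the SECOND cycle, the first one has length three or four) and `Ob44S` (only 4-cycles).
`Bet43S` and `Alp43S` may use `Ob45S`.
-/

namespace Pool.Agent.B5

open scoped LaurentPolynomial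
open Polynomial

/-- (KO_BET) PURE BETA: a 3-cycle, every outside ray has a load which kills the whole cycle. -/
def Bet43S : Prop := ∀ (P L : Type) [Fintype P] [DecidableEq P] [AddCommGroup L]
  [Module.Free ℤ L] [Module.Finite ℤ L] (phi : L →+ (P → ℤ)) (D : AO ℤ L) (q f : ℤ[X]) (a : ℝ)
  (j : ℕ) (eta : L → (RO ℤ)ˣ) (Z : ZMod (0 + 3) → L) (mu : ZMod (0 + 3) → L →+ ℤ),
    KcB phi D q f a j eta 1 (Set.range Z) → f.coeff 0 = 1 → f.coeff 1 - q.coeff 1 = j + 1 →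
      Cyc phi D eta 0 Z mu →
      (∀ R, Ray D R → (∀ i, R ≠ Z i) → ∃ e : (RO ℤ)ˣ, ∀ i, Z i ∉ US e R D) → False

/-- (KO_ALP) ALPHA: two neutral cycles `Z` (length three or four) and `Z'` (length three). -/
def Alp43S : Prop := ∀ (P L : Type) [Fintype P] [DecidableEq P] [AddCommGroup L]
  [Module.Free ℤ L] [Module.Finite ℤ L] (phi : L →+ (P → ℤ)) (D : AO ℤ L) (q f f' : ℤ[X])
  (a : ℝ) (j : ℕ) (eta : L → (RO ℤ)ˣ) (k : ℕ) (Z : ZMod (k + 3) → L)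
  (mu : ZMod (k + 3) → L →+ ℤ) (Z' : ZMod (0 + 3) → L) (mu' : ZMod (0 + 3) → L →+ ℤ), k ≤ 1 →
    KO.H96.Alp phi D q f f' a j eta k 0 Z mu Z' mu' → False

/-- There is no 3-cycle. -/
theorem no_three (hE2 : E2S) (hF3 : F3S) (hRk : RkUSS) (hL : LMNS) (hMco : McoS) (hOfa : OfaS)
    (hOfb : OfbS) (hO1 : Oo1S) (hO4 : Oo4S) (hB2 : Ob2S) (hB3 : Ob3S) (hSf : SfzS)
    (hClp : ClpS) (hCyc : CycS) (h5 : Ob45S) (hB : Bet43S) (hA : Alp43S) {P : Type} [Fintype P]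
    [DecidableEq P] {L : Type} [AddCommGroup L] [Module.Free ℤ L] [Module.Finite ℤ L]
    {phi : L →+ (P → ℤ)} {D : AO ℤ L} {q f : ℤ[X]} {a : ℝ} {j : ℕ} {eta : L → (RO ℤ)ˣ}
    {C : Set L} {Z : ZMod (0 + 3) → L} {mu : ZMod (0 + 3) → L →+ ℤ}
    (W : KcB phi D q f a j eta 1 C) (hu : f.coeff 0 = 1)
    (hn : f.coeff 1 - q.coeff 1 = j + 1) (h : Cyc phi D eta 0 Z mu) (hZ : ∀ i, Z i ∈ C) :
    False := by
  have W0 := KO.H96.kcB_range W h hZ
  rcases KO.H96.neu_or hF3 W.ko.min.fp.dd h with ⟨R0, hR0, hR0Z, hN⟩ | hb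
  · obtain ⟨f', eta', k', Z', mu', -, hal⟩ := KO.H96.alp_of hE2 hF3 hRk hL hMco hOfa hOfb hO1 hO4
      hB2 hB3 hSf hClp hCyc W hu hn h hZ hR0 hR0Z hN
    rcases k' with _ | k'
    · exact hA P L phi D q f' f a j eta' 0 Z' mu' Z mu (by omega) hal.symm
    · rcases k' with _ | k'
      · exact hA P L phi D q f' f a j eta' (0 + 1) Z' mu' Z mu (by omega) hal.symm
      · exact h5 P L phi D q f' a j eta' (Set.range Z') k' Z' mu' hal.w' hal.u' hal.n' hal.c'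
          fun i => ⟨i, rfl⟩
  · exact hB P L phi D q f a j eta Z mu W0 hu hn h hb

/-- THE SPLIT. -/
theorem ob4_split5 (hE2 : E2S) (hF3 : F3S) (hRk : RkUSS) (hL : LMNS) (hMco : McoS)
    (hOfa : OfaS) (hOfb : OfbS) (hO1 : Oo1S) (hO4 : Oo4S) (hB2 : Ob2S) (hB3 : Ob3S)
    (hSf : SfzS) (hClp : ClpS) (hCyc : CycS) (h5 : Ob45S) (hB : Bet43S) (hA : Alp43S)
    (h4 : Ob44S) : Ob4S := by
  intro P L _ _ _ _ _ phi D q f a j eta C W hu hn
  obtain ⟨S, hS⟩ := W.kc.ne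
  obtain ⟨k, Z, mu, hc, -, hZ⟩ := KO.H96.cyc_ex hSf hClp hCyc W hu hS
  rcases k with _ | k
  · exact no_three hE2 hF3 hRk hL hMco hOfa hOfb hO1 hO4 hB2 hB3 hSf hClp hCyc h5 hB hA W hu hn
      hc hZ
  · rcases k with _ | k
    · refine h4 P L phi D q f a j eta C Z mu W hu hn hc hZ ?_
      intro f' eta' C' k' Z' mu' W' hu' hn' hc' hZ'
      rcases k' with _ | k'
      · exact (no_three hE2 hF3 hRk hL hMco hOfa hOfb hO1 hO4 hB2 hB3 hSf hClp hCyc h5 hB hA W'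
          hu' hn' hc' hZ').elim
      · rcases k' with _ | k'
        · rfl
        · exact (h5 P L phi D q f' a j eta' C' k' Z' mu' W' hu' hn' hc' hZ').elim
    · exact h5 P L phi D q f a j eta C k Z mu W hu hn hc hZ

end Pool.Agent.B5
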